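import Pool.Agent.P.MP_a9a441_nt.ChowlaK

/-! The Chowla conjecture for the Liouville function of `K[X]`, `K` finite of characteristic two,
for all systems of linear forms and uniformly in the shifts. -/

namespace Pool.Agent.Results.MP_a9a441_nt.Chowla

open Polynomial Finset Pool.Agent.P.MP_a1177c_nt.HL Pool.Agent.P.MP_a9a441_nt

theorem result (K : Type*) [Field K] [Fintype K] [CharP K 2] (r : ℕ) (hr : 1 ≤ r)
    (a : Fin r → K[X]) (ha : ∀ i, a i ≠ 0) (ε : ℝ) (hε : 0 < ε) :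
    ∃ n₀ : ℕ, ∀ n ≥ n₀, ∀ b : Fin r → K[X], (∀ i, (b i).natDegree < (a i).natDegree + n) →
      (∀ i j, i ≠ j → a i * b j ≠ a j * b i) →
      |∑ g ∈ Mn K n, ∏ i, lam (a i * g + b i)| ≤ ε * (Fintype.card K : ℝ) ^ n := by
  obtain ⟨n₀, h⟩ := chowla (⟨0, hr⟩ : Fin r) ha hε
  exact ⟨n₀, fun n hn b hb hne => h n hn b
    (fun i => mem_Pl.2 (degree_le_natDegree.trans_lt (by exact_mod_cast hb i)))
    fun i hi => hne _ i hi.symm⟩

end Pool.Agent.Results.MP_a9a441_nt.Chowla
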