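import Pool.Agent.P.MP_a9a441_nt.FU.PropK
import Pool.Agent.P.MP_a9a441_nt.FU.Off
import Pool.Agent.P.MP_a9a441_nt.FU.Red1
import Pool.Agent.P.MP_a9a441_nt.FU.Red2

/-!
Local Fourier uniformity of the Liouville function on intervals of polylogarithmic length.
-/

namespace Pool.Agent.Results.MP_a9a441_nt.Polylog

open Finset Filter Pool.Agent.Lib.LargeSieve Pool.Agent.P.MP_a9a441_nt.FU

theorem near_sup (S : Set ℝ) (F : ℝ → ℝ) (hF : ∀ a, 0 ≤ F a) {ε : ℝ} (hε : 0 < ε) :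
    ∃ a, (⨆ a ∈ S, F a) ≤ F a + ε := by
  by_contra hcon
  push Not at hcon
  have h0 : 0 ≤ (⨆ a ∈ S, F a) - ε := by linarith [hcon 0, hF 0]
  have h1 : (⨆ a ∈ S, F a) ≤ (⨆ a ∈ S, F a) - ε :=
    Real.iSup_le (fun a => Real.iSup_le (fun _ => by linarith [hcon a]) h0) h0
  linarith

theorem choice_form {δ : ℝ} (hδ : 0 < δ) : ∃ A : ℕ, ∀ᶠ M : ℕ in atTop,
    ∀ (N : ℕ) (α : ℕ → ℝ), Real.log M ^ A ≤ N →
      ∑ m ∈ Icc 1 M, ‖∑ n ∈ Icc m (m + N), lam n * ee (-(α m * n))‖ ≤ δ * M * (N + 1) := by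
  set d : ℝ := min δ 1 with hd
  have d0 : 0 < d := lt_min hδ one_pos
  have d1 : d ≤ 1 := min_le_right _ _
  have dδ : d ≤ δ := min_le_left _ _
  have k1 : (d / 10 / 4 / 24) ^ 2 / 48 ≤ 1 := by nlinarith
  obtain ⟨A, ρ, hA, hρ, hK⟩ := propK (δ := (d / 10 / 4 / 24) ^ 2 / 48) (by positivity) k1
  have hρ1 : 1 ≤ ρ := by
    have : (0 : ℝ) < ρ := lt_of_lt_of_le (by positivity) hρ
    exact_mod_cast this
  have hL := off (δ := d / 10 / 4) (by positivity) (by linarith) hA hρ hK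
  have hD := red1 (δ := d / 10) (by positivity) hρ1 hL
  refine ⟨A + 1 + 1, (red2 d0 hD).mono fun M hM N α hN => (hM N α hN).trans ?_⟩
  gcongr

/-- For every `δ > 0` there is `A` such that for all large `M` and all `N ≥ (log M)^A` the average
over `m ≤ M` of the supremum over `α` of the normalized exponential sum over `[m, m+N]` is at most
`δ`. -/
theorem result (δ : ℝ) (hδ : 0 < δ) : ∃ A : ℕ, ∀ᶠ M : ℕ in Filter.atTop, ∀ N : ℕ,
    Real.log M ^ A ≤ N →
      (1 / (M : ℝ)) *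
        ∑ m ∈ Finset.Icc 1 M,
          (⨆ α ∈ Set.Ico (0 : ℝ) 1,
            ‖(1 / ((N : ℂ) + 1)) *
              ∑ n ∈ Finset.Icc m (m + N),
                (-1 : ℂ) ^ (Nat.primeFactorsList n).length *
                  Complex.exp (2 * Real.pi * Complex.I * ((n : ℂ) * (α : ℂ)))‖) ≤ δ := by
  obtain ⟨A, hA⟩ := choice_form (δ := δ / 2) (by positivity)
  refine ⟨A, ?_⟩
  filter_upwards [hA, eventually_gt_atTop 0] with M hM M0 N hN
  have hM0 : (0 : ℝ) < M := by exact_mod_cast M0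
  have hN0 : (0 : ℝ) < (N : ℝ) + 1 := by positivity
  choose α hα using fun m : ℕ => near_sup (Set.Ico (0 : ℝ) 1)
    (fun α : ℝ => ‖(1 / ((N : ℂ) + 1)) * ∑ n ∈ Finset.Icc m (m + N),
      (-1 : ℂ) ^ (Nat.primeFactorsList n).length *
        Complex.exp (2 * Real.pi * Complex.I * ((n : ℂ) * (α : ℂ)))‖)
    (fun _ => norm_nonneg _) (ε := δ / 2) (by positivity)
  have h1 := hM N (fun m => -α m) hN
  have h2 : ∀ m ∈ Icc 1 M, ‖(1 / ((N : ℂ) + 1)) * ∑ n ∈ Finset.Icc m (m + N),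
      (-1 : ℂ) ^ (Nat.primeFactorsList n).length *
        Complex.exp (2 * Real.pi * Complex.I * ((n : ℂ) * (α m : ℂ)))‖ =
      ‖∑ n ∈ Icc m (m + N), lam n * ee (-(-α m * n))‖ / (N + 1) := by
    intro m hm
    have e1 : ‖(1 / ((N : ℂ) + 1))‖ = 1 / ((N : ℝ) + 1) := by
      rw [norm_div, norm_one]
      congr 1
      exact_mod_cast Complex.norm_natCast (N + 1)
    rw [norm_mul, e1, one_div, mul_comm, div_eq_mul_inv]
    congr 2
    refine sum_congr rfl fun n hn => ?_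
    have hn0 : n ≠ 0 := by
      have := (mem_Icc.1 hm).1
      have := (mem_Icc.1 hn).1
      omega
    rw [lam_eq hn0]
    congr 1
    unfold ee
    congr 1
    push_cast
    ring
  have h3 := sum_le_sum fun m (hm : m ∈ Icc 1 M) => (hα m).trans (add_le_add (h2 m hm).le le_rfl)
  rw [sum_add_distrib, ← sum_div, sum_const, Nat.card_Icc, nsmul_eq_mul] at h3
  have h4 : (∑ m ∈ Icc 1 M, ‖∑ n ∈ Icc m (m + N), lam n * ee (-(-α m * n))‖) / (N + 1) ≤
      δ / 2 * M := by rwa [div_le_iff₀ hN0]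
  rw [one_div, inv_mul_le_iff₀ hM0]
  refine h3.trans ?_
  simp only [Nat.add_sub_cancel]
  linarith

end Pool.Agent.Results.MP_a9a441_nt.Polylog
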